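import Pool.Agent.Helper62.LH.StA

/-! # Project LH: module HP (projection to the weighted coclosed forms) -/

set_option autoImplicit false

open Set Filter Topology MeasureTheory
open scoped ContDiff ENNReal

noncomputable section

namespace Pool.Agent.Helper80.LH

open Helper62.LH

variable {n : ℕ}

theorem ip_def (g : E n → Bl n) (x : E n) (a b : Dl n) :
    ip g x a b = ∑ i, ∑ j, gi g x i j * (a (ee i) * b (ee j)) := rfl

/-- expansion of the square -/
theorem ip_expand (g : E n → Bl n) (x : E n) (a b : Dl n) (t : ℝ) (hs : ip g x b a = ip g x a b) :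
    ip g x (a + t • b) (a + t • b) = ip g x a a + 2 * t * ip g x a b + t ^ 2 * ip g x b b := by
  have h1 : ip g x (a + t • b) (a + t • b) =
      ip g x a a + t * ip g x a b + t * ip g x b a + t ^ 2 * ip g x b b := by
    simp only [ip_def, Finset.mul_sum, ← Finset.sum_add_distrib]
    refine Finset.sum_congr rfl fun i _ => Finset.sum_congr rfl fun j _ => ?_
    simp only [add_apply, smul_apply, smul_eq_mul]
    ring
  rw [h1, hs]
  ring

theorem ip_neg (g : E n → Bl n) (x : E n) (a : Dl n) : ip g x (-a) (-a) = ip g x a a := by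
  simp only [ip_def, neg_apply, neg_mul_neg]

theorem ip_zero (g : E n → Bl n) (x : E n) (b : Dl n) : ip g x 0 b = 0 := by
  simp [ip_def]

/-- the inverse metric is continuous -/
theorem gi_cont (hU : StUt) (g : E n → Bl n) (hg : IsMet g) (i j : Fin n) :
    Continuous (fun x => gi g x i j) := by
  have h := (hU n g hg).1 (fun _ => EuclideanSpace.proj i) (fun _ => EuclideanSpace.proj j)
    continuous_const continuous_const
  have e : (fun x => ip g x (EuclideanSpace.proj i : Dl n) (EuclideanSpace.proj j : Dl n)) =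
      fun x => gi g x i j := by
    funext x
    rw [ip_def]
    rw [Finset.sum_eq_single i, Finset.sum_eq_single j]
    · simp [ee]
    · intro b _ hb
      simp [ee, hb.symm]
    · simp
    · intro b _ hb
      refine Finset.sum_eq_zero fun c _ => ?_
      simp [ee, hb.symm]
    · simp
  rw [← e]
  exact h

/-- measurability of the inner product -/
theorem ip_meas (hU : StUt) (g : E n → Bl n) (hg : IsMet g) (w : E n → ℝ) (hw : Continuous w)
    (α β : E n → Dl n) (hα : AEStronglyMeasurable α volume) (hβ : AEStronglyMeasurable β volume) :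
    AEStronglyMeasurable (fun x => ip g x (α x) (β x) * w x) volume := by
  refine AEStronglyMeasurable.mul ?_ hw.aestronglyMeasurable
  simp only [ip_def]
  refine Finset.aestronglyMeasurable_fun_sum _ fun i _ => ?_
  refine Finset.aestronglyMeasurable_fun_sum _ fun j _ => ?_
  refine AEStronglyMeasurable.mul (gi_cont hU g hg i j).aestronglyMeasurable ?_
  refine AEStronglyMeasurable.mul ?_ ?_
  · exact (ContinuousLinearMap.apply ℝ ℝ (ee i)).continuous.comp_aestronglyMeasurable hα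
  · exact (ContinuousLinearMap.apply ℝ ℝ (ee j)).continuous.comp_aestronglyMeasurable hβ

/-- square integrable forms -/
def Hh (g : E n → Bl n) (w : E n → ℝ) (α : E n → Dl n) : Prop :=
  AEStronglyMeasurable α volume ∧ Integrable (fun x => ip g x (α x) (α x) * w x)

/-- square of the norm -/
def Nh (g : E n → Bl n) (w : E n → ℝ) (α : E n → Dl n) : ℝ :=
  ∫ x, ip g x (α x) (α x) * w x

/-- Young's inequality, integrability -/
theorem Hh.add (hU : StUt) (hI : StIna) {g : E n → Bl n} (hg : IsMet g) {w : E n → ℝ}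
    (hw : Continuous w) (hw0 : ∀ x, 0 < w x) {α β : E n → Dl n} (hα : Hh g w α) (hβ : Hh g w β) :
    Hh g w (fun x => α x + β x) := by
  refine ⟨hα.1.add hβ.1, ?_⟩
  have h1 := (hα.2.const_mul 2).add (hβ.2.const_mul 2)
  refine h1.mono (ip_meas hU g hg w hw _ _ (hα.1.add hβ.1) (hα.1.add hβ.1)) ?_
  refine Eventually.of_forall fun x => ?_
  obtain ⟨i1, i2, i3, i4, i5, i6, i7, i8⟩ := hI n g hg x
  have h2 := i6 (α x) (β x) 1 one_pos
  have h3 : 0 ≤ ip g x (α x + β x) (α x + β x) * w x := mul_nonneg (i1 _) (hw0 x).le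
  have h4 : 0 ≤ 2 * (ip g x (α x) (α x) * w x) + 2 * (ip g x (β x) (β x) * w x) := by
    have := mul_nonneg (i1 (α x)) (hw0 x).le
    have := mul_nonneg (i1 (β x)) (hw0 x).le
    linarith
  rw [Real.norm_eq_abs, Real.norm_eq_abs, abs_of_nonneg h3]
  simp only [Pi.add_apply]
  rw [abs_of_nonneg h4]
  have h5 := mul_le_mul_of_nonneg_right h2 (hw0 x).le
  refine h5.trans (le_of_eq ?_)
  ring

theorem Hh.neg {g : E n → Bl n} {w : E n → ℝ} {α : E n → Dl n} (hα : Hh g w α) :
    Hh g w (fun x => -α x) := by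
  refine ⟨hα.1.neg, ?_⟩
  simpa only [ip_neg] using hα.2

theorem Hh.smul {g : E n → Bl n} {w : E n → ℝ} {α : E n → Dl n} (hα : Hh g w α) (t : ℝ) :
    Hh g w (fun x => t • α x) := by
  refine ⟨hα.1.const_smul t, ?_⟩
  have e : (fun x => ip g x (t • α x) (t • α x) * w x) =
      fun x => t ^ 2 * (ip g x (α x) (α x) * w x) := by
    funext x
    simp only [ip_def, Finset.mul_sum, Finset.sum_mul]
    refine Finset.sum_congr rfl fun i _ => Finset.sum_congr rfl fun j _ => ?_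
    simp only [smul_apply, smul_eq_mul]
    ring
  rw [e]
  exact hα.2.const_mul _

theorem Hh.int2 (hU : StUt) (hI : StIna) {g : E n → Bl n} (hg : IsMet g) {w : E n → ℝ}
    (hw : Continuous w) (hw0 : ∀ x, 0 < w x) {α β : E n → Dl n} (hα : Hh g w α) (hβ : Hh g w β) :
    Integrable (fun x => ip g x (α x) (β x) * w x) := by
  have h1 := hα.2.add hβ.2
  refine h1.mono (ip_meas hU g hg w hw _ _ hα.1 hβ.1) ?_
  refine Eventually.of_forall fun x => ?_
  obtain ⟨i1, i2, i3, i4, i5, i6, i7, i8⟩ := hI n g hg x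
  have h2 := i4 (α x) (β x)
  have h3 := Real.sq_sqrt (i1 (α x))
  have h4 := Real.sq_sqrt (i1 (β x))
  have h5 : |ip g x (α x) (β x)| ≤ ip g x (α x) (α x) + ip g x (β x) (β x) := by
    have h6 := i1 (α x)
    have h7 := i1 (β x)
    nlinarith [sq_nonneg (√(ip g x (α x) (α x)) - √(ip g x (β x) (β x)))]
  rw [Real.norm_eq_abs, Real.norm_eq_abs, abs_mul, abs_of_pos (hw0 x)]
  simp only [Pi.add_apply]
  rw [← add_mul, abs_mul, abs_of_pos (hw0 x)]
  exact mul_le_mul_of_nonneg_right (h5.trans (le_abs_self _)) (hw0 x).le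

/-- expansion of the square of the norm -/
theorem Nh_expand (hU : StUt) (hI : StIna) {g : E n → Bl n} (hg : IsMet g) {w : E n → ℝ}
    (hw : Continuous w) (hw0 : ∀ x, 0 < w x) {α β : E n → Dl n} (hα : Hh g w α) (hβ : Hh g w β)
    (t : ℝ) :
    Nh g w (fun x => α x + t • β x) =
      Nh g w α + 2 * t * (∫ x, ip g x (α x) (β x) * w x) + t ^ 2 * Nh g w β := by
  have h1 := Hh.int2 hU hI hg hw hw0 hα hβ
  unfold Nh
  have h2 : Integrable (fun x => ip g x (α x) (α x) * w x + 2 * t * (ip g x (α x) (β x) * w x)) :=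
    hα.2.add (h1.const_mul _)
  rw [← integral_const_mul, ← integral_const_mul, ← integral_add hα.2 (h1.const_mul _),
    ← integral_add h2 (hβ.2.const_mul _)]
  refine integral_congr_ae (Eventually.of_forall fun x => ?_)
  simp only
  rw [ip_expand g x _ _ t ((hI n g hg x).2.1 _ _)]
  ring

/-- Young's inequality for the norm -/
theorem Nh_young (hU : StUt) (hI : StIna) {g : E n → Bl n} (hg : IsMet g) {w : E n → ℝ}
    (hw : Continuous w) (hw0 : ∀ x, 0 < w x) {α β : E n → Dl n} (hα : Hh g w α) (hβ : Hh g w β)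
    (s : ℝ) (hs : 0 < s) :
    Nh g w (fun x => α x + β x) ≤ (1 + s) * Nh g w α + (1 + 1 / s) * Nh g w β := by
  unfold Nh
  rw [← integral_const_mul, ← integral_const_mul,
    ← integral_add (hα.2.const_mul _) (hβ.2.const_mul _)]
  refine integral_mono (Hh.add hU hI hg hw hw0 hα hβ).2
    ((hα.2.const_mul _).add (hβ.2.const_mul _)) fun x => ?_
  obtain ⟨i1, i2, i3, i4, i5, i6, i7, i8⟩ := hI n g hg x
  have h2 := mul_le_mul_of_nonneg_right (i6 (α x) (β x) s hs) (hw0 x).le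
  refine h2.trans (le_of_eq ?_)
  ring

theorem Nh_nonneg (hI : StIna) {g : E n → Bl n} (hg : IsMet g) {w : E n → ℝ}
    (hw0 : ∀ x, 0 < w x) (α : E n → Dl n) : 0 ≤ Nh g w α :=
  integral_nonneg fun x => mul_nonneg ((hI n g hg x).1 _) (hw0 x).le

theorem Nh_neg (g : E n → Bl n) (w : E n → ℝ) (α : E n → Dl n) :
    Nh g w (fun x => -α x) = Nh g w α := by
  unfold Nh
  simp only [ip_neg]

/-- a differential of a test function is square integrable -/
theorem Hh_du (hU : StUt) {g : E n → Bl n} (hg : IsMet g) {w : E n → ℝ}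
    (hw : Continuous w) {u : E n → ℝ} (hu : Cc u) : Hh g w (fderiv ℝ u) := by
  have hc : Continuous (fderiv ℝ u) := hu.1.continuous_fderiv (by simp)
  refine ⟨hc.aestronglyMeasurable, ?_⟩
  refine Continuous.integrable_of_hasCompactSupport (((hU n g hg).1 _ _ hc hc).mul hw) ?_
  have hs : HasCompactSupport (fderiv ℝ u) := hu.2.fderiv ℝ
  refine HasCompactSupport.intro hs fun x hx => ?_
  rw [image_eq_zero_of_notMem_tsupport hx, ip_zero, zero_mul]

theorem Cc_comb {u v : E n → ℝ} (hu : Cc u) (hv : Cc v) (s t : ℝ) :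
    Cc (fun x => s * u x + t * v x) := by
  refine ⟨(contDiff_const.mul hu.1).add (contDiff_const.mul hv.1), ?_⟩
  exact (hu.2.mul_left (f := fun _ => s)).add (hv.2.mul_left (f := fun _ => t))

theorem fderiv_comb {u v : E n → ℝ} (hu : Cc u) (hv : Cc v) (s t : ℝ) (x : E n) :
    fderiv ℝ (fun x => s * u x + t * v x) x = s • fderiv ℝ u x + t • fderiv ℝ v x := by
  have h1 : DifferentiableAt ℝ u x := (hu.1.differentiable (by simp)) x
  have h2 : DifferentiableAt ℝ v x := (hv.1.differentiable (by simp)) x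
  exact ((h1.hasFDerivAt.const_mul s).add (h2.hasFDerivAt.const_mul t)).fderiv

/-- limit argument -/
theorem young_lim (x y : ℝ) (hy : 0 ≤ y)
    (h : ∀ ε > 0, ∀ s > 0, x ≤ (1 + s) * (y + ε) + (1 + 1 / s) * ε) : x ≤ y := by
  by_contra hxy
  push Not at hxy
  obtain ⟨δ, hδ⟩ : ∃ δ, δ = x - y := ⟨_, rfl⟩
  have hδ0 : 0 < δ := by linarith
  obtain ⟨s, hs⟩ : ∃ s, s = δ / (4 * (y + 1)) := ⟨_, rfl⟩
  have hs0 : 0 < s := by
    rw [hs]
    positivity
  have hs1 : s * (y + 1) = δ / 4 := by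
    rw [hs]
    field_simp
  obtain ⟨ε, hε⟩ : ∃ ε, ε = min 1 (min (δ / 16) (s * δ / 8)) := ⟨_, rfl⟩
  have hε0 : 0 < ε := by
    rw [hε]
    refine lt_min one_pos (lt_min (by positivity) (by positivity))
  have hε1 : ε ≤ 1 := by
    rw [hε]
    exact min_le_left _ _
  have hε2 : ε ≤ δ / 16 := by
    rw [hε]
    exact (min_le_right _ _).trans (min_le_left _ _)
  have hε3 : ε ≤ s * δ / 8 := by
    rw [hε]
    exact (min_le_right _ _).trans (min_le_right _ _)
  have h1 := h ε hε0 s hs0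
  have h2 : 1 / s * ε ≤ δ / 8 := by
    rw [one_div, inv_mul_le_iff₀ hs0]
    linarith
  have h3 : s * ε ≤ s * 1 := mul_le_mul_of_nonneg_left hε1 hs0.le
  nlinarith

/-- vanishing of the linear term -/
theorem lin_zero (b q : ℝ) (hq : 0 ≤ q) (h : ∀ t : ℝ, 0 ≤ 2 * t * b + t ^ 2 * q) : b = 0 := by
  by_contra hb
  have h1 := h (-b / (q + 1))
  have h2 : 2 * (-b / (q + 1)) * b + (-b / (q + 1)) ^ 2 * q = -(b ^ 2 * (q + 2)) / (q + 1) ^ 2 := by
    field_simp
    ring
  rw [h2] at h1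
  have h3 : 0 < b ^ 2 * (q + 2) := by positivity
  have h4 : -(b ^ 2 * (q + 2)) / (q + 1) ^ 2 < 0 :=
    div_neg_of_neg_of_pos (by linarith) (by positivity)
  linarith

theorem hHp (hU : StUt) (hI : StIna) (hC : StCpt) : StHp := by
  intro n g hg w hw hw0 θ₀ hθc hθi
  have hθ₀ : Hh g w θ₀ := ⟨hθc.aestronglyMeasurable, hθi⟩
  -- the infimum
  set S : Set ℝ := {r | ∃ u, Cc u ∧ r = Nh g w (fun x => θ₀ x + fderiv ℝ u x)} with hS
  have hCc0 : Cc (fun _ : E n => (0 : ℝ)) := ⟨contDiff_const, HasCompactSupport.zero⟩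
  have hSne : S.Nonempty := ⟨_, _, hCc0, rfl⟩
  have hSb : BddBelow S := ⟨0, by
    rintro r ⟨u, -, rfl⟩
    exact Nh_nonneg hI hg hw0 _⟩
  set m : ℝ := sInf S with hm
  have hm0 : 0 ≤ m := le_csInf hSne (by
    rintro r ⟨u, -, rfl⟩
    exact Nh_nonneg hI hg hw0 _)
  have hmle : ∀ u, Cc u → m ≤ Nh g w (fun x => θ₀ x + fderiv ℝ u x) := fun u hu =>
    csInf_le hSb ⟨u, hu, rfl⟩
  have hex : ∀ k : ℕ, ∃ u, Cc u ∧
      Nh g w (fun x => θ₀ x + fderiv ℝ u x) < m + 1 / ((k : ℝ) + 1) := by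
    intro k
    obtain ⟨r, ⟨u, hu, rfl⟩, hr⟩ := exists_lt_of_csInf_lt hSne
      (show sInf S < m + 1 / ((k : ℝ) + 1) by
        rw [← hm]
        have : (0 : ℝ) < 1 / ((k : ℝ) + 1) := by positivity
        linarith)
    exact ⟨u, hu, hr⟩
  choose u hu hum using hex
  have hθk : ∀ k, Hh g w (fun x => θ₀ x + fderiv ℝ (u k) x) := fun k =>
    Hh.add hU hI hg hw hw0 hθ₀ (Hh_du hU hg hw (hu k))
  have hθkc : ∀ k, Continuous (fun x => θ₀ x + fderiv ℝ (u k) x) := fun k =>
    hθc.add ((hu k).1.continuous_fderiv (by simp))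
  -- parallelogram
  have hD : ∀ k l, Hh g w (fun x => (θ₀ x + fderiv ℝ (u k) x) - (θ₀ x + fderiv ℝ (u l) x)) := by
    intro k l
    have := Hh.add hU hI hg hw hw0 (hθk k) (hθk l).neg
    simpa only [sub_eq_add_neg] using this
  have hpar : ∀ k l, Nh g w (fun x => (θ₀ x + fderiv ℝ (u k) x) - (θ₀ x + fderiv ℝ (u l) x)) ≤
      2 / ((k : ℝ) + 1) + 2 / ((l : ℝ) + 1) := by
    intro k l
    have e1 := Nh_expand hU hI hg hw hw0 (hθk l) (hD k l) 1
    have e2 := Nh_expand hU hI hg hw hw0 (hθk l) (hD k l) (1 / 2)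
    have e3 : (fun x => (θ₀ x + fderiv ℝ (u l) x) +
        (1 : ℝ) • ((θ₀ x + fderiv ℝ (u k) x) - (θ₀ x + fderiv ℝ (u l) x))) =
        fun x => θ₀ x + fderiv ℝ (u k) x := by
      funext x
      rw [one_smul]
      abel
    have e4 : (fun x => (θ₀ x + fderiv ℝ (u l) x) +
        (1 / 2 : ℝ) • ((θ₀ x + fderiv ℝ (u k) x) - (θ₀ x + fderiv ℝ (u l) x))) =
        fun x => θ₀ x + fderiv ℝ (fun x => 1 / 2 * u k x + 1 / 2 * u l x) x := by
      funext x
      rw [fderiv_comb (hu k) (hu l)]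
      module
    rw [e3] at e1
    rw [e4] at e2
    have h1 := hmle _ (Cc_comb (hu k) (hu l) (1 / 2) (1 / 2))
    have h2 := hum k
    have h3 := hum l
    have h4 : (2 : ℝ) / ((k : ℝ) + 1) = 2 * (1 / ((k : ℝ) + 1)) := by ring
    have h5 : (2 : ℝ) / ((l : ℝ) + 1) = 2 * (1 / ((l : ℝ) + 1)) := by ring
    rw [h4, h5]
    linarith
  -- the limit
  have hN : ∀ ε > 0, ∃ N : ℕ, ∀ k ≥ N, 1 / ((k : ℝ) + 1) ≤ ε := by
    intro ε hε
    obtain ⟨N, hN⟩ := exists_nat_gt (1 / ε)
    refine ⟨N, fun k hk => ?_⟩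
    have h1 : (N : ℝ) ≤ k := by exact_mod_cast hk
    have h2 : (0 : ℝ) < (k : ℝ) + 1 := by positivity
    rw [div_le_iff₀ h2]
    rw [div_lt_iff₀ hε] at hN
    nlinarith
  obtain ⟨θ', hθ'm, hθ'⟩ := hC n g hg w hw hw0 (fun k x => θ₀ x + fderiv ℝ (u k) x) hθkc (by
    intro ε hε
    obtain ⟨N, hN⟩ := hN (ε / 4) (by positivity)
    refine ⟨N, fun k hk l hl => ⟨(hD k l).2, ?_⟩⟩
    refine (hpar k l).trans ?_
    have h1 := hN k hk
    have h2 := hN l hl
    have h4 : (2 : ℝ) / ((k : ℝ) + 1) = 2 * (1 / ((k : ℝ) + 1)) := by ring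
    have h5 : (2 : ℝ) / ((l : ℝ) + 1) = 2 * (1 / ((l : ℝ) + 1)) := by ring
    rw [h4, h5]
    linarith)
  have hR : ∀ k, Integrable (fun x => ip g x (θ₀ x + fderiv ℝ (u k) x - θ' x)
      (θ₀ x + fderiv ℝ (u k) x - θ' x) * w x) →
      Hh g w (fun x => θ₀ x + fderiv ℝ (u k) x - θ' x) := fun k hk =>
    ⟨(hθkc k).aestronglyMeasurable.sub hθ'm, hk⟩
  -- `θ'` is square integrable
  have hθ'H : Hh g w θ' := by
    obtain ⟨N, hN1⟩ := hθ' 1 one_pos
    have h1 := hR N (hN1 N le_rfl).1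
    have h2 := Hh.add hU hI hg hw hw0 (hθk N) h1.neg
    have e : (fun x => (θ₀ x + fderiv ℝ (u N) x) + -(θ₀ x + fderiv ℝ (u N) x - θ' x)) = θ' := by
      funext x
      abel
    rwa [e] at h2
  -- the choice of an index
  have hidx : ∀ ε > 0, ∃ k : ℕ, 1 / ((k : ℝ) + 1) ≤ ε ∧
      Hh g w (fun x => θ₀ x + fderiv ℝ (u k) x - θ' x) ∧
      Nh g w (fun x => θ₀ x + fderiv ℝ (u k) x - θ' x) ≤ ε := by
    intro ε hε
    obtain ⟨N, hN1⟩ := hθ' ε hε
    obtain ⟨N', hN2⟩ := hN ε hε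
    have h1 := hN1 (max N N') (le_max_left _ _)
    exact ⟨max N N', hN2 _ (le_max_right _ _), hR _ h1.1, h1.2⟩
  have hQ1 : Nh g w θ' ≤ m := by
    refine young_lim _ _ hm0 fun ε hε s hs => ?_
    obtain ⟨k, hk1, hk2, hk3⟩ := hidx ε hε
    have h1 := Nh_young hU hI hg hw hw0 (hθk k) hk2.neg s hs
    have e : (fun x => (θ₀ x + fderiv ℝ (u k) x) + -(θ₀ x + fderiv ℝ (u k) x - θ' x)) = θ' := by
      funext x
      abel
    rw [e, Nh_neg] at h1
    refine h1.trans (add_le_add ?_ ?_)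
    · refine mul_le_mul_of_nonneg_left ?_ (by linarith)
      have := hum k
      linarith
    · refine mul_le_mul_of_nonneg_left hk3 ?_
      have : 0 < 1 / s := by positivity
      linarith
  have hQ2 : ∀ v, Cc v → ∀ t : ℝ, m ≤ Nh g w (fun x => θ' x + t • fderiv ℝ v x) := by
    intro v hv t
    refine young_lim _ _ (Nh_nonneg hI hg hw0 _) fun ε hε s hs => ?_
    obtain ⟨k, hk1, hk2, hk3⟩ := hidx ε hε
    have h0 : Hh g w (fun x => θ' x + t • fderiv ℝ v x) :=
      Hh.add hU hI hg hw hw0 hθ'H ((Hh_du hU hg hw hv).smul t)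
    have h1 := Nh_young hU hI hg hw hw0 h0 hk2 s hs
    have e : (fun x => (θ' x + t • fderiv ℝ v x) + (θ₀ x + fderiv ℝ (u k) x - θ' x)) =
        fun x => θ₀ x + fderiv ℝ (fun x => 1 * u k x + t * v x) x := by
      funext x
      rw [fderiv_comb (hu k) hv]
      module
    rw [e] at h1
    refine ((hmle _ (Cc_comb (hu k) hv 1 t)).trans h1).trans (add_le_add ?_ ?_)
    · refine mul_le_mul_of_nonneg_left ?_ (by linarith)
      linarith
    · refine mul_le_mul_of_nonneg_left hk3 ?_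
      have : 0 < 1 / s := by positivity
      linarith
  refine ⟨θ', hθ'm, hθ'H.2, ?_, ?_, ?_⟩
  · have h1 := hmle _ hCc0
    have e : (fun x : E n => θ₀ x + fderiv ℝ (fun _ : E n => (0 : ℝ)) x) = θ₀ := by
      funext x
      rw [fderiv_fun_const]
      simp
    rw [e] at h1
    exact hQ1.trans h1
  · intro v hv
    refine lin_zero _ _ (Nh_nonneg hI hg hw0 (fderiv ℝ v)) fun t => ?_
    have h1 := hQ2 v hv t
    rw [Nh_expand hU hI hg hw hw0 hθ'H (Hh_du hU hg hw hv) t] at h1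
    linarith
  · intro κ hκ
    obtain ⟨k, hk1, hk2, hk3⟩ := hidx κ hκ
    exact ⟨u k, hu k, hk2.2, hk3⟩

end Pool.Agent.Helper80.LH
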