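import Pool.Agent.Helper62.LH.StV

/-! # Project LH: module INB (pointwise inequalities for bilinear forms) -/

set_option autoImplicit false

open Set Filter Topology MeasureTheory
open scoped ContDiff ENNReal

namespace Pool.Agent.Helper80.LH

open Helper62.LH

theorem hInb (hOnb : StOnb) (hTr : StTr) : StInb := by
  intro n g hg x
  obtain ⟨f, hf⟩ := hOnb n g hg x
  obtain ⟨-, T2, T3, T4, -⟩ := hTr n g hg x f hf
  -- formulas for functions which agree with bilinear maps
  have nBe : ∀ (F : E n → E n → ℝ) (B : Bl n), (∀ u v, B u v = F u v) →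
      nB g x F = ∑ i, ∑ j, F (f i) (f j) ^ 2 := by
    intro F B h
    have h1 : F = fun u v => B u v := by
      funext u v
      exact (h u v).symm
    rw [h1]
    exact T4 B
  have iBe : ∀ (F G : E n → E n → ℝ) (B C : Bl n), (∀ u v, B u v = F u v) →
      (∀ u v, C u v = G u v) → iB g x F G = ∑ i, ∑ j, F (f i) (f j) * G (f i) (f j) := by
    intro F G B C h h'
    have h1 : F = fun u v => B u v := by
      funext u v
      exact (h u v).symm
    have h2 : G = fun u v => C u v := by
      funext u v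
      exact (h' u v).symm
    rw [h1, h2]
    exact T3 B C
  have hsr : ∀ (a b : Dl n) (u v : E n), (a.smulRight b : Bl n) u v = a u * b v := fun a b u v => by
    simp [ContinuousLinearMap.smulRight_apply]
  have n1 : ∀ B : Bl n, nB g x (fun u v => B u v) = ∑ i, ∑ j, B (f i) (f j) ^ 2 := T4
  have n5 : ∀ a b : Dl n, nB g x (fun u v => a u * b v) = ∑ i, ∑ j, (a (f i) * b (f j)) ^ 2 :=
    fun a b => nBe _ (a.smulRight b) (hsr a b)
  have p5 : ∀ a b : Dl n, ∑ i, ∑ j, (a (f i) * b (f j)) ^ 2 = ip g x a a * ip g x b b := by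
    intro a b
    rw [T2, T2, Finset.sum_mul_sum]
    refine Finset.sum_congr rfl fun i _ => Finset.sum_congr rfl fun j _ => ?_
    ring
  refine ⟨?_, ?_, ?_, ?_, ?_, ?_, ?_, ?_⟩
  · intro B
    rw [n1]
    exact Finset.sum_nonneg fun i _ => Finset.sum_nonneg fun j _ => sq_nonneg _
  · intro B C s hs
    rw [n1, n1, nBe _ (B + C) (fun u v => by simp), Finset.mul_sum, Finset.mul_sum,
      ← Finset.sum_add_distrib]
    refine Finset.sum_le_sum fun i _ => ?_
    rw [Finset.mul_sum, Finset.mul_sum, ← Finset.sum_add_distrib]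
    refine Finset.sum_le_sum fun j _ => ?_
    set p := B (f i) (f j)
    set q := C (f i) (f j)
    have h1 : (1 + s) * p ^ 2 + (1 + 1 / s) * q ^ 2 - (p + q) ^ 2 = (s * p - q) ^ 2 / s := by
      field_simp
      ring
    have h2 : 0 ≤ (s * p - q) ^ 2 / s := by positivity
    linarith
  · intro B s
    rw [n1, nBe _ (s • B) (fun u v => by simp), Finset.mul_sum]
    refine Finset.sum_congr rfl fun i _ => ?_
    rw [Finset.mul_sum]
    refine Finset.sum_congr rfl fun j _ => ?_
    ring
  · intro a b
    rw [nBe _ (a.smulRight b - b.smulRight a)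
      (fun u v => by rw [ContinuousLinearMap.sub_apply, ContinuousLinearMap.sub_apply, hsr, hsr]; ring)]
    have h1 : ∑ i, ∑ j, (a (f i) * b (f j) - a (f j) * b (f i)) ^ 2 =
        2 * (ip g x a a * ip g x b b) - 2 * (∑ i, a (f i) * b (f i)) ^ 2 := by
      have e1 : ∑ i, ∑ j, (a (f i) * b (f j)) ^ 2 = ip g x a a * ip g x b b := p5 a b
      have e2 : ∑ i, ∑ j, (a (f j) * b (f i)) ^ 2 = ip g x a a * ip g x b b := by
        rw [Finset.sum_comm]
        exact p5 a b
      have e3 : (∑ i, a (f i) * b (f i)) ^ 2 =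
          ∑ i, ∑ j, (a (f i) * b (f i)) * (a (f j) * b (f j)) := by
        rw [pow_two, Finset.sum_mul_sum]
      have e4 : ∀ i j, (a (f i) * b (f j) - a (f j) * b (f i)) ^ 2 =
          (a (f i) * b (f j)) ^ 2 + (a (f j) * b (f i)) ^ 2 -
            2 * ((a (f i) * b (f i)) * (a (f j) * b (f j))) := fun i j => by ring
      simp only [e4]
      simp only [Finset.sum_sub_distrib, Finset.sum_add_distrib, ← Finset.mul_sum]
      rw [e1, e2, e3]
      simp only [← Finset.mul_sum]
      ring
    rw [h1]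
    have h2 := sq_nonneg (∑ i, a (f i) * b (f i))
    linarith
  · intro a b
    rw [n5, p5]
  · intro m c B hc
    rw [nBe _ (∑ i, c i • B i) (fun u v => by simp [ContinuousLinearMap.sum_apply])]
    have h1 : ∑ k, nB g x (fun u v => B k u v) =
        ∑ i, ∑ j, ∑ k, B k (f i) (f j) ^ 2 := by
      simp only [n1]
      rw [Finset.sum_comm]
      refine Finset.sum_congr rfl fun i _ => ?_
      rw [Finset.sum_comm]
    rw [h1]
    refine Finset.sum_le_sum fun i _ => Finset.sum_le_sum fun j _ => ?_
    have h2 := Finset.sum_mul_sq_le_sq_mul_sq Finset.univ c (fun k => B k (f i) (f j))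
    rw [hc, one_mul] at h2
    exact h2
  · intro P a b
    rw [iBe _ _ P (a.smulRight b) (fun u v => rfl) (hsr a b)]
    have h1 : (∑ i, ∑ j, P (f i) (f j) * (a (f i) * b (f j))) ^ 2 ≤
        nB g x (fun u v => P u v) * (ip g x a a * ip g x b b) := by
      rw [n1, ← p5 a b]
      have h2 := Finset.sum_mul_sq_le_sq_mul_sq (Finset.univ : Finset (Fin n × Fin n))
        (fun q => P (f q.1) (f q.2)) (fun q => a (f q.1) * b (f q.2))
      rw [Fintype.sum_prod_type, Fintype.sum_prod_type, Fintype.sum_prod_type] at h2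
      exact h2
    have h3 := Real.abs_le_sqrt h1
    have hn : 0 ≤ nB g x (fun u v => P u v) := by
      rw [n1]
      exact Finset.sum_nonneg fun i _ => Finset.sum_nonneg fun j _ => sq_nonneg _
    have ha : 0 ≤ ip g x a a := by
      rw [T2]
      exact Finset.sum_nonneg fun i _ => mul_self_nonneg _
    rw [Real.sqrt_mul hn, Real.sqrt_mul ha] at h3
    exact h3
  · intro B
    rw [nBe _ (B - B.flip) (fun u v => by simp), n1,
      iBe _ _ B B.flip (fun u v => rfl) (fun u v => by simp)]
    have e2 : ∑ i, ∑ j, B (f j) (f i) ^ 2 = ∑ i, ∑ j, B (f i) (f j) ^ 2 := by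
      rw [Finset.sum_comm]
    have e4 : ∀ i j, (B (f i) (f j) - B (f j) (f i)) ^ 2 =
        B (f i) (f j) ^ 2 + B (f j) (f i) ^ 2 - 2 * (B (f i) (f j) * B (f j) (f i)) :=
      fun i j => by ring
    simp only [e4]
    simp only [Finset.sum_sub_distrib, Finset.sum_add_distrib, ← Finset.mul_sum]
    rw [e2]
    ring

end Pool.Agent.Helper80.LH
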