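import Pool.Agent.Helper62.LH.StG

/-! # Project LH: module LL (the length of a Lipschitz curve is at least the distance) -/

set_option autoImplicit false

open Set Filter Topology MeasureTheory
open scoped ContDiff ENNReal

namespace Pool.Agent.Helper80.LH

open Helper62.LH

theorem nr_smul {n : ℕ} (g : E n → Bl n) (x : E n) (a : ℝ) (v : E n) :
    nr g x (a • v) = |a| * nr g x v := by
  unfold nr
  have h1 : g x (a • v) (a • v) = a ^ 2 * g x v v := by
    simp only [map_smul, ContinuousLinearMap.smul_apply, smul_eq_mul]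
    ring
  rw [h1, Real.sqrt_mul (sq_nonneg a), Real.sqrt_sq_eq_abs]

theorem nr_nonneg {n : ℕ} (g : E n → Bl n) (x v : E n) : 0 ≤ nr g x v := Real.sqrt_nonneg _

theorem nr_cont {n : ℕ} (g : E n → Bl n) (hg : Continuous g) :
    Continuous (fun q : E n × E n => nr g q.1 q.2) := by
  unfold nr
  have h1 : Continuous (fun q : E n × E n => g q.1 q.2 q.2) :=
    ((hg.comp continuous_fst).clm_apply continuous_snd).clm_apply continuous_snd
  exact h1.sqrt

theorem hLl (hCmp : StCmp) (hMet : StMet) (hLoc : StLoc) : StLl := by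
  intro n g hg γ K hK
  obtain ⟨M1, -, -, M4, M5, M6⟩ := hMet n g hg
  have hgc : Continuous g := hg.smooth.continuous
  have hR : ∀ t ∈ Icc (0 : ℝ) 1, γ t ∈ Metric.closedBall (0 : E n) (‖γ 0‖ + K) := by
    intro t ht
    rw [mem_closedBall_zero_iff]
    have h1 := hK.dist_le_mul t 0
    rw [dist_eq_norm, dist_eq_norm, sub_zero, Real.norm_of_nonneg ht.1] at h1
    have h2 : ‖γ t‖ ≤ ‖γ 0‖ + ‖γ t - γ 0‖ := by
      have := norm_add_le (γ 0) (γ t - γ 0)
      rwa [add_sub_cancel] at this
    have h3 : (K : ℝ) * t ≤ K * 1 := mul_le_mul_of_nonneg_left ht.2 K.coe_nonneg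
    linarith
  obtain ⟨m, M, -, hM, hmM⟩ := hCmp n g hg (Metric.closedBall (0 : E n) (‖γ 0‖ + K))
    (isCompact_closedBall _ _)
  have hnr : ∀ x ∈ Metric.closedBall (0 : E n) (‖γ 0‖ + K), ∀ v, nr g x v ≤ √M * ‖v‖ := by
    intro x hx v
    unfold nr
    calc √(g x v v) ≤ √(M * ‖v‖ ^ 2) := Real.sqrt_le_sqrt (hmM x hx v).2
      _ = √M * ‖v‖ := by rw [Real.sqrt_mul hM.le, Real.sqrt_sq (norm_nonneg v)]
  have hd : ∀ y ∈ Metric.closedBall (0 : E n) (‖γ 0‖ + K),
      ∀ z ∈ Metric.closedBall (0 : E n) (‖γ 0‖ + K), dg g y z ≤ √M * ‖z - y‖ := by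
    intro y hy z hz
    have h1 := M1 (fun t : ℝ => y + t • (z - y)) (by fun_prop) 0 1 zero_le_one
    simp only [zero_smul, add_zero, one_smul, add_sub_cancel] at h1
    refine h1.trans ?_
    have h2 : ∀ τ ∈ uIoc (0 : ℝ) 1,
        ‖nr g (y + τ • (z - y)) (deriv (fun t : ℝ => y + t • (z - y)) τ)‖ ≤ √M * ‖z - y‖ := by
      intro τ hτ
      rw [uIoc_of_le zero_le_one] at hτ
      have h3 : HasDerivAt (fun t : ℝ => y + t • (z - y)) ((1 : ℝ) • (z - y)) τ :=
        ((hasDerivAt_id τ).smul_const (z - y)).const_add y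
      rw [h3.deriv, one_smul, Real.norm_of_nonneg (nr_nonneg _ _ _)]
      apply hnr
      have h4 := (convex_closedBall (0 : E n) (‖γ 0‖ + K)) hy hz
        (sub_nonneg.2 hτ.2) hτ.1.le (by ring)
      have h5 : y + τ • (z - y) = (1 - τ) • y + τ • z := by
        rw [smul_sub, sub_smul, one_smul]
        abel
      rw [h5]
      exact h4
    have h6 := intervalIntegral.norm_integral_le_of_norm_le_const h2
    rw [sub_zero, abs_one, mul_one] at h6
    exact (le_abs_self _).trans h6
  -- the distance function along the curve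
  set φ : ℝ → ℝ := fun t => dg g (γ 0) (γ t) with hφ
  have hφd : ∀ s t : ℝ, φ t - φ s ≤ dg g (γ s) (γ t) := by
    intro s t
    have := M6 (γ 0) (γ s) (γ t)
    simp only [hφ]
    linarith
  have hφL : LipschitzOnWith (Real.toNNReal (√M * K)) φ (uIcc 0 1) := by
    apply LipschitzOnWith.of_dist_le_mul
    intro s hs t ht
    rw [uIcc_of_le zero_le_one] at hs ht
    rw [Real.coe_toNNReal _ (by positivity), Real.dist_eq]
    have h1 : dg g (γ s) (γ t) ≤ √M * K * dist s t := by
      refine (hd _ (hR s hs) _ (hR t ht)).trans ?_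
      have h2 := hK.dist_le_mul t s
      rw [dist_eq_norm, dist_comm t s] at h2
      rw [mul_assoc]
      exact mul_le_mul_of_nonneg_left h2 (Real.sqrt_nonneg _)
    rw [abs_le]
    constructor
    · have := hφd s t
      linarith
    · have := hφd t s
      rw [M5] at this
      linarith
  have hAC := hφL.absolutelyContinuousOnInterval
  have hFTC := hAC.integral_deriv_eq_sub
  have hφ0 : φ 0 = 0 := M4 (γ 0)
  rw [hφ0, sub_zero] at hFTC
  -- pointwise inequality
  have hpt : ∀ t : ℝ, DifferentiableAt ℝ φ t → DifferentiableAt ℝ γ t →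
      deriv φ t ≤ nr g (γ t) (deriv γ t) := by
    intro t hφt hγt
    have hε : ∀ ε : ℝ, 0 < ε → ε < 1 → deriv φ t ≤ (1 + ε) * nr g (γ t) (deriv γ t) := by
      intro ε hε0 hε1
      obtain ⟨r, hr, -, hloc⟩ := hLoc n g hg (γ t) ε hε0 hε1
      have l1 : Tendsto (fun h : ℝ => h⁻¹ • (φ (t + h) - φ t)) (𝓝[>] 0) (𝓝 (deriv φ t)) :=
        (hasDerivAt_iff_tendsto_slope_zero.1 hφt.hasDerivAt).mono_left
          (nhdsWithin_mono _ fun h hh => ne_of_gt hh)
      have l2 : Tendsto (fun h : ℝ => h⁻¹ • (γ (t + h) - γ t)) (𝓝[>] 0) (𝓝 (deriv γ t)) :=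
        (hasDerivAt_iff_tendsto_slope_zero.1 hγt.hasDerivAt).mono_left
          (nhdsWithin_mono _ fun h hh => ne_of_gt hh)
      have hcv : Continuous (fun v : E n => nr g (γ t) v) :=
        (nr_cont g hgc).comp (continuous_const.prodMk continuous_id)
      have l3 : Tendsto (fun h : ℝ => (1 + ε) * nr g (γ t) (h⁻¹ • (γ (t + h) - γ t))) (𝓝[>] 0)
          (𝓝 ((1 + ε) * nr g (γ t) (deriv γ t))) :=
        ((hcv.tendsto _).comp l2).const_mul _
      have hball : ∀ᶠ h : ℝ in 𝓝[>] 0, γ (t + h) ∈ Metric.ball (γ t) r := by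
        have h1 : ContinuousAt (fun h : ℝ => γ (t + h)) 0 := by
          have h2 : Continuous (fun h : ℝ => γ (t + h)) :=
            hK.continuous.comp (continuous_const.add continuous_id)
          exact h2.continuousAt
        have h3 : Metric.ball (γ t) r ∈ 𝓝 (γ (t + 0)) := by
          rw [add_zero]
          exact Metric.ball_mem_nhds _ hr
        exact (h1.eventually h3).filter_mono nhdsWithin_le_nhds
      refine le_of_tendsto_of_tendsto l1 l3 ?_
      filter_upwards [hball, self_mem_nhdsWithin] with h hh hpos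
      have hpos' : (0 : ℝ) < h := hpos
      have h1 := (hloc (γ t) (Metric.mem_ball_self hr) (γ (t + h)) hh).2
      have h2 := (hφd t (t + h)).trans h1
      rw [nr_smul, abs_of_pos (inv_pos.2 hpos'), smul_eq_mul]
      have h3 := mul_le_mul_of_nonneg_left h2 (inv_pos.2 hpos').le
      linarith
    have l1 : Tendsto (fun ε : ℝ => (1 + ε) * nr g (γ t) (deriv γ t)) (𝓝[>] 0)
        (𝓝 ((1 + 0) * nr g (γ t) (deriv γ t))) := by
      have h1 : Continuous (fun ε : ℝ => (1 + ε) * nr g (γ t) (deriv γ t)) := by fun_prop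
      exact (h1.tendsto 0).mono_left nhdsWithin_le_nhds
    rw [add_zero, one_mul] at l1
    refine ge_of_tendsto l1 ?_
    filter_upwards [Ioo_mem_nhdsGT (zero_lt_one' ℝ)] with ε hε'
    exact hε ε hε'.1 hε'.2
  -- integrability of the speed
  have hint : IntervalIntegrable (fun t => nr g (γ t) (deriv γ t)) volume 0 1 := by
    rw [intervalIntegrable_iff_integrableOn_Icc_of_le zero_le_one]
    have hmeas : Measurable (fun t => nr g (γ t) (deriv γ t)) :=
      (nr_cont g hgc).measurable.comp (hK.continuous.measurable.prodMk (measurable_deriv γ))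
    apply Measure.integrableOn_of_bounded (M := √M * K)
    · exact measure_Icc_lt_top.ne
    · exact hmeas.aestronglyMeasurable
    · filter_upwards [ae_restrict_mem measurableSet_Icc] with t ht
      rw [Real.norm_of_nonneg (nr_nonneg _ _ _)]
      refine (hnr _ (hR t ht) _).trans ?_
      exact mul_le_mul_of_nonneg_left (norm_deriv_le_of_lipschitz hK) (Real.sqrt_nonneg _)
  have hfin : ∫ t in (0 : ℝ)..1, deriv φ t ≤ ∫ t in (0 : ℝ)..1, nr g (γ t) (deriv γ t) := by
    apply intervalIntegral.integral_mono_ae_restrict zero_le_one hAC.intervalIntegrable_deriv hint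
    filter_upwards [ae_restrict_mem measurableSet_Icc, ae_restrict_of_ae hAC.ae_differentiableAt,
      ae_restrict_of_ae hK.ae_differentiableAt_real] with t ht h1 h2
    exact hpt t (h1 (by rw [uIcc_of_le zero_le_one]; exact ht)) h2
  rw [hFTC] at hfin
  exact hfin

end Pool.Agent.Helper80.LH
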